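import Pool.Agent.W603.PV.FewMain

/-!
Vojta's height inequality over function fields, for projective varieties given by forms with few
monomials that are high powers, and coordinate hyperplanes as boundary.
-/

set_option autoImplicit false

namespace Pool.Agent.Results.MP_4dacf8_ag.FewMonomials

open FF MvPolynomial Pool.Agent.W603.LV Pool.Agent.W603.PV

universe u v w z

/-- Let `F` be a function field of one variable over the algebraically closed field `k` of
characteristic zero. Let `Fs i` be finitely many forms over `F` in `x_0, …, x_n` such that the
exponents of the `x_j`, `j ∉ U`, in the monomials of `Fs i` are multiples of some `N i`, at least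
the square of the number of these monomials minus one. Let `X` be an irreducible component of the
projective variety `Fs i = 0` that lies in no coordinate hyperplane, with homogeneous prime ideal
`p`, and suppose that only the trivial diagonal one-parameter groups preserve `X`. Let `D` be the
part of `X` in the hyperplanes `x_j = 0`, `j ∈ U`. Then there are a proper closed subset `G = 0` of
`X`, containing `D`, and constants `B`, `C` such that, for every finite extension `L` of `F` and
every point `f` of `X` over `L` outside this subset, the height of `f` (relative to `L`) is at most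
`B (2 g(L) - 2 + N1) + C [L : F]`, where `N1` is the number of places of `L` at which `f` meets
`D`. -/
theorem result {k : Type u} [Field k] [IsAlgClosed k] [CharZero k] {F : Type v} [Field F]
    [Algebra k F] [IsFF k F] {n : ℕ} {ι : Type z} [Finite ι] (U : Finset (Fin (n + 1)))
    (Fs : ι → MvPolynomial (Fin (n + 1)) F) {e : ι → ℕ} (hF : ∀ i, (Fs i).IsHomogeneous (e i))
    (hC : ∀ i, HighPowers U (Fs i).support) (p : Ideal (MvPolynomial (Fin (n + 1)) F))
    (hmin : p ∈ (Ideal.span (Set.range Fs)).minimalPrimes) (hX : ∀ j, X j ∉ p)
    (hst : ∀ b : Fin (n + 1) → ℤ, Stable p b → ∀ j l, b j = b l) :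
    ∃ (d : ℕ) (G : MvPolynomial (Fin (n + 1)) F), G.IsHomogeneous d ∧ G ∉ p ∧
      (∀ j, X j ∣ G) ∧ ∃ (B C : ℕ), ∀ (L : Type w) [Field L] [Algebra k L] [Algebra F L]
      [IsScalarTower k F L] [FiniteDimensional F L] (f : Fin (n + 1) → L),
      (∀ H ∈ p, aeval f H = 0) → aeval f G ≠ 0 →
        pht k f ≤ B * (canDeg k L + (boundary (k := k) U f).ncard) + C * Module.finrank F L :=
  few_vojta U Fs hF hC hmin hX hst

end Pool.Agent.Results.MP_4dacf8_ag.FewMonomials
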