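import Pool.Agent.W601.VF.Cov4

/-!
Vojta's height inequality over function fields, for projective pairs with a generically finite map
to a projective space of any dimension (onto the image) that is ramified, outside the boundary, with
any multiplicities, for instance multiplicity two, over sufficiently many constant hyperplanes in
general position.
-/

set_option autoImplicit false

namespace Pool.Agent.Results.MP_4dacf8_ag.HyperplaneCovers

open FF MvPolynomial Pool.Agent.W603.LV Pool.Agent.W603.PV Pool.Agent.W601.VF

universe u v w

/-- Let `F` be a function field of one variable over the algebraically closed field `k` of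
characteristic zero and `n ≥ 1`.

(1) Let `ℓ i` be `q` linear forms in `n + 1` variables over `k` which, as points of the dual space,
impose independent conditions on the forms of degree `d`, let `w i ≤ 1`, and put
`b = C(n + d - 1, n - 1)`. Suppose that `2 * b < ∑ i, w i`. Let `X` be a projective variety over `F`
(given by an ideal `p`), `D` the divisor `Q = 0` on `X` for a form `Q` of degree `e`, and let
`φ 0, …, φ n` be forms over `F` which define a map from `X` to projective `n`-space that is
ramified, outside `D`, over the hyperplanes `ℓ i = 0` with the weights `w i`. Then the height of the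
image `f` of a point `x` of `X` over a finite extension `L` of `F` satisfies
`(∑ i, w i - 2 * b) * h(f) ≤ ∑ i, N i + b * (2 g(L) - 2) + C * [L : F]` (heights relative to `L`),
if `x` is not in `D` and `f` not in one of the hyperplanes; here `N i` is the number of places of
`L` at which `x` meets `D` and `f` meets the `i`-th hyperplane, and `C` does not depend on `L`
and `x`.

(2) If moreover `X` is integral and not contained in `D`, the map is generically finite onto its
image, and the image is not contained in one of the hyperplanes, then Vojta's inequality holds for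
`(X, D)`: there are a proper closed subset `G = 0` of `X` containing `D` and constants `B`, `C` such
that the height of every point `x` of `X` over a finite extension `L` of `F` outside this subset is
at most `B * (2 g(L) - 2 + N) + C * [L : F]`, where `N` is the number of places of `L` at which `x`
meets `D`.

(3) If `0 < s`, `2 * n ≤ K * s` and `q > C(n + K, n)`, there is a `d` with
`2 * C(n + d - 1, n - 1) < q * s` such that all `q`-tuples of linear forms outside a proper Zariski
closed set impose independent conditions on the forms of degree `d`. -/
theorem result {k : Type u} [Field k] [IsAlgClosed k] [CharZero k] {F : Type v} [Field F]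
    [Algebra k F] [IsFF k F] (n : ℕ) (hn : 1 ≤ n) :
    (∀ (d q : ℕ) (ℓ : Fin q → Fin (n + 1) → k) (w : Fin q → ℝ), Ind d ℓ → (∀ i, w i ≤ 1) →
      2 * (((n + d - 1).choose (n - 1) : ℕ) : ℝ) < ∑ i, w i →
      ∀ (N : ℕ) (p : Ideal (MvPolynomial (Fin (N + 1)) F)) (Q : MvPolynomial (Fin (N + 1)) F)
        (e : ℕ) (φ : Fin (n + 1) → MvPolynomial (Fin (N + 1)) F) (S : Finset (Place k F)),
        Ramified.{u, v, w} p Q e φ ℓ w S →
        ImageBound.{u, v, w} p Q e φ ℓ w ((n + d - 1).choose (n - 1)) ∧
        ∀ [p.IsPrime], Admissible p Q e φ ℓ → Vojta.{u, v, w} k p Q e) ∧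
    (∀ (s : ℝ) (K q : ℕ), 0 < s → 2 * n ≤ K * s → (n + K).choose n < q → ∃ d : ℕ,
      2 * (((n + d - 1).choose (n - 1) : ℕ) : ℝ) < q * s ∧
      ∃ Ψ : MvPolynomial (Fin q × Fin (n + 1)) k, Ψ ≠ 0 ∧
        ∀ ℓ : Fin q → Fin (n + 1) → k, eval (fun x => ℓ x.1 x.2) Ψ ≠ 0 → Ind d ℓ) := by
  refine ⟨fun d q ℓ w hI hw hq N p Q e φ S hR => main hn hI hw hq p Q e φ S hR,
    fun s K q hs hK hq => ?_⟩
  obtain ⟨d, h1, h2⟩ := numbers2 n hn s hs K q hK hq
  exact ⟨d, h2, generic h1⟩

end Pool.Agent.Results.MP_4dacf8_ag.HyperplaneCovers
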