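import Mathlib
import Pool.Agent.W603.CZ.Vojta

/-!
Vojta's height inequality over function fields, for projective varieties given by forms that are
sums of few high powers of linear forms, with any number of boundary divisors of the same kind.
-/

set_option autoImplicit false

namespace Pool.Agent.Results.MP_4dacf8_ag.PowerSumPairs

open FF MvPolynomial Pool.Agent.W603.LV Pool.Agent.W603.PV Pool.Agent.W603.CZ

/-- Let `F` be a function field of one variable over the algebraically closed field `k` of
characteristic zero. Let `Fs i` be forms over `F` in `x_0, …, x_n`, each of which is a sum of `s`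
terms `c ℓ ^ N` with `N ≥ (s - 1) ^ 2`, where `c` is a nonzero constant and `ℓ` is a linear form
over `F`. Let `X` be an irreducible component of the projective variety `Fs i = 0`, with homogeneous
prime ideal `p`. Let the boundary `D` of `X` be given by any finite number of forms `Q j` which do
not vanish on `X`, where `Q j` is a sum of `r` terms `c ℓ ^ (q j)` with `q j ≥ r ^ 2`. Then either
there is a line through the generic point of `X` (over an extension field) which lies in `X` and
meets `D` in at most two points, or there are a proper closed subset `G = 0` of `X`, containing `D`,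
and constants `B`, `C` such that, for every finite extension `L` of `F` and every point `f` of `X`
over `L` outside this subset, the height of `f` (relative to `L`) is at most
`B (2 g(L) - 2 + N1) + C [L : F]`, where `N1` is the number of places of `L` at which `f` meets
`D`. -/
theorem result {k F : Type} [Field k] [IsAlgClosed k] [CharZero k] [Field F] [Algebra k F]
    [IsFF k F] {n : ℕ} {ι κ : Type} [Finite κ] (Fs : ι → MvPolynomial (Fin (n + 1)) F)
    (hF : ∀ i, ∃ s N : ℕ, 0 < N ∧ (s - 1) ^ 2 ≤ N ∧ IsPowSum (Fs i) s N)
    (Q : κ → MvPolynomial (Fin (n + 1)) F) (q : κ → ℕ)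
    (hQ : ∀ j, ∃ r : ℕ, 0 < q j ∧ r ^ 2 ≤ q j ∧ IsPowSum (Q j) r (q j))
    (p : Ideal (MvPolynomial (Fin (n + 1)) F)) [p.IsPrime]
    (hmin : p ∈ (Ideal.span (Set.range Fs)).minimalPrimes) (hx : ∃ j, X j ∉ p)
    (hQp : ∀ j, Q j ∉ p) :
    HasPuncturedLine p Q q ∨
    ∃ (d : ℕ) (G : MvPolynomial (Fin (n + 1)) F), G.IsHomogeneous d ∧ G ∉ p ∧
      (∀ j, Q j ∣ G) ∧ ∃ (B C : ℕ), ∀ (L : Type) [Field L] [Algebra k L] [Algebra F L]
      [IsScalarTower k F L] [FiniteDimensional F L] (f : Fin (n + 1) → L),
      (∀ H ∈ p, aeval f H = 0) → aeval f G ≠ 0 →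
        pht k f ≤ B * (canDeg k L + (meetsAny (k := k) Q q f).ncard) +
          C * Module.finrank F L := by
  by_cases hline : HasPuncturedLine p Q q
  · exact Or.inl hline
  · exact Or.inr (vojta_multi Fs hF Q q hQ p hmin hx hQp hline)

end Pool.Agent.Results.MP_4dacf8_ag.PowerSumPairs
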