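import Pool.Agent.W603.PV.Main

/-!
Vojta's height inequality over function fields, for projective pairs with a rigid system of
generalised unit equations.
-/

set_option autoImplicit false

namespace Pool.Agent.Results.MP_4dacf8_ag.RigidSystems

open FF MvPolynomial Pool.Agent.W603.LV Pool.Agent.W603.PV

universe u v w z

/-- Let `F` be a function field of one variable over the algebraically closed field `k` of
characteristic zero, let `X` be an integral closed subvariety of the projective `n`-space over `F`
with homogeneous prime ideal `p`, and let `D` be the divisor `Q = 0` on `X`, for a form `Q` of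
degree `q` that does not vanish on `X`. Suppose that the pair `(X, D)` has a rigid system of
generalised unit equations `∑_a ψ i a * φ i a ^ N i = 0`. Then there are a proper closed subset
`G = 0` of `X`, containing `D`, and constants `B`, `C` such that, for every finite extension `L` of
`F` and every point `f` of `X` over `L` outside this subset, the height of `f` (relative to `L`) is
at most `B (2 g(L) - 2 + N1) + C [L : F]`, where `N1` is the number of places of `L` at which `f`
meets `D`. -/
theorem result {k : Type u} [Field k] [IsAlgClosed k] [CharZero k] {F : Type v} [Field F]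
    [Algebra k F] [IsFF k F] {n : ℕ} (p : Ideal (MvPolynomial (Fin (n + 1)) F)) [p.IsPrime]
    (hp : IsHomog p) (hx : ∃ j, X j ∉ p) {Q : MvPolynomial (Fin (n + 1)) F} {q : ℕ}
    (hQ : Q.IsHomogeneous q) (hQp : Q ∉ p) {I : Type z} [Finite I] {s : I → ℕ}
    (E : EqSys p Q q s) (hE : E.Rigid) :
    ∃ (d : ℕ) (G : MvPolynomial (Fin (n + 1)) F), G.IsHomogeneous d ∧ G ∉ p ∧ Q ∣ G ∧
      ∃ (B C : ℕ), ∀ (L : Type w) [Field L] [Algebra k L] [Algebra F L] [IsScalarTower k F L]
      [FiniteDimensional F L] (f : Fin (n + 1) → L),
      (∀ H ∈ p, aeval f H = 0) → aeval f G ≠ 0 →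
        pht k f ≤ B * (canDeg k L + (meets (k := k) Q q f).ncard) + C * Module.finrank F L :=
  vojta hp hQ hQp E hE hx

end Pool.Agent.Results.MP_4dacf8_ag.RigidSystems
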